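import Pool.Agent.TH994.PreCut2

set_option autoImplicit false
open Filter Topology Finset

namespace Pool.Agent.TH994.PreCut

/-- The coordinate group. -/
abbrev Zn (n : ℕ) : Type := Multiplicative (ZMod (8 ^ n + 1))

/-- The groups of the example. -/
abbrev Gn (n : ℕ) : Type := (Fin (2 ^ n) → Zn n) × (Fin (4 ^ n) → Zn n)

lemma card_Zn (n : ℕ) : Fintype.card (Zn n) = 8 ^ n + 1 := by
  simp [Zn, ZMod.card]

/-- The step laws of the example. -/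
noncomputable def pn (n : ℕ) (g : Gn n) : ℝ := R (Zn n) (1 - 1 / ((n : ℝ) + 1)) (1/2) g

/-- The distance to uniform. -/
noncomputable def D (n k : ℕ) : ℝ :=
  tv (Zn n) (Fin (2 ^ n)) (Fin (4 ^ n)) ((1 - 1 / ((n : ℝ) + 1)) ^ k) ((1/2 : ℝ) ^ k)

lemma an_nonneg (n : ℕ) : 0 ≤ 1 - 1 / ((n : ℝ) + 1) := by
  have : 1 / ((n : ℝ) + 1) ≤ 1 := by
    rw [div_le_one (by positivity)]
    have : (0:ℝ) ≤ n := Nat.cast_nonneg n
    linarith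
  linarith

lemma an_le_one (n : ℕ) : 1 - 1 / ((n : ℝ) + 1) ≤ 1 := by
  have : 0 ≤ 1 / ((n : ℝ) + 1) := by positivity
  linarith

lemma ak_nonneg (n k : ℕ) : 0 ≤ (1 - 1 / ((n : ℝ) + 1)) ^ k := pow_nonneg (an_nonneg n) k

lemma ak_le_one (n k : ℕ) : (1 - 1 / ((n : ℝ) + 1)) ^ k ≤ 1 :=
  pow_le_one₀ (an_nonneg n) (an_le_one n)

lemma xk_nonneg (k : ℕ) : (0:ℝ) ≤ (1/2 : ℝ) ^ k := by positivity

lemma xk_le_one (k : ℕ) : (1/2 : ℝ) ^ k ≤ 1 := pow_le_one₀ (by norm_num) (by norm_num)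

lemma bern (x : ℝ) (hx1 : x ≤ 1) (N : ℕ) : 1 - N * x ≤ (1 - x) ^ N := by
  have h := one_add_mul_le_pow (a := -x) (by linarith) N
  have h2 : (1 + -x) ^ N = (1 - x) ^ N := by ring
  rw [h2] at h
  linarith

lemma pow_le_exp (x : ℝ) (hx1 : x ≤ 1) (N : ℕ) : (1 - x) ^ N ≤ Real.exp (-(N * x)) := by
  have h : 1 - x ≤ Real.exp (-x) := by
    have := Real.add_one_le_exp (-x)
    linarith
  calc (1 - x) ^ N ≤ (Real.exp (-x)) ^ N := pow_le_pow_left₀ (by linarith) h N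
    _ = Real.exp (-(N * x)) := by
      rw [← Real.exp_nat_mul]; congr 1; ring

lemma D_upper (n k : ℕ) : D n k ≤ 2 ^ n * (1/2 : ℝ) ^ k +
    (1 - 1 / ((n : ℝ) + 1)) ^ k * (1 - (1 - (1/2 : ℝ) ^ k) ^ (4 ^ n)) := by
  unfold D
  have h := tv_upper (Z := Zn n) (I := Fin (2 ^ n)) (J := Fin (4 ^ n))
    ((1 - 1 / ((n : ℝ) + 1)) ^ k) ((1/2 : ℝ) ^ k) (ak_nonneg n k) (ak_le_one n k)
    (xk_nonneg k) (xk_le_one k)
  refine le_trans h ?_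
  simp only [Fintype.card_fin]
  have h1 := bern ((1/2 : ℝ) ^ k) (xk_le_one k) (2 ^ n)
  push_cast at h1
  have h2 : (1 - (1/2 : ℝ) ^ k) ^ (4 ^ n) ≤ 1 :=
    pow_le_one₀ (by linarith [xk_le_one k]) (by linarith [xk_nonneg k])
  have h20 : 0 ≤ (1 - (1/2 : ℝ) ^ k) ^ (4 ^ n) := pow_nonneg (by linarith [xk_le_one k]) _
  have h3 : 0 ≤ (1 - 1 / ((n : ℝ) + 1)) ^ k * (1 - (1 - (1/2 : ℝ) ^ k) ^ (4 ^ n)) :=
    mul_nonneg (ak_nonneg n k) (by linarith)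
  have h4 : (1 - 1 / ((n : ℝ) + 1)) ^ k * (1 - (1 - (1/2 : ℝ) ^ k) ^ (4 ^ n)) ≤ 1 := by
    have := ak_le_one n k
    have := ak_nonneg n k
    nlinarith
  set B := (1 - (1/2 : ℝ) ^ k) ^ (2 ^ n)
  set A := (1 - 1 / ((n : ℝ) + 1)) ^ k * (1 - (1 - (1/2 : ℝ) ^ k) ^ (4 ^ n))
  have hB1 : B ≤ 1 := pow_le_one₀ (by linarith [xk_le_one k]) (by linarith [xk_nonneg k])
  have h5 : 0 ≤ (2 ^ n * (1/2 : ℝ) ^ k) := by positivity
  nlinarith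

lemma D_upper1 (n k : ℕ) : D n k ≤ 2 ^ n * (1/2 : ℝ) ^ k + (1 - 1 / ((n : ℝ) + 1)) ^ k := by
  refine le_trans (D_upper n k) ?_
  have h20 : 0 ≤ (1 - (1/2 : ℝ) ^ k) ^ (4 ^ n) := pow_nonneg (by linarith [xk_le_one k]) _
  have := ak_nonneg n k
  nlinarith

lemma D_upper2 (n k : ℕ) : D n k ≤ 2 * (4 ^ n * (1/2 : ℝ) ^ k) := by
  refine le_trans (D_upper n k) ?_
  have h1 := bern ((1/2 : ℝ) ^ k) (xk_le_one k) (4 ^ n)
  push_cast at h1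
  have h2 := ak_le_one n k
  have h20 := ak_nonneg n k
  have h3 : (2:ℝ) ^ n ≤ 4 ^ n := pow_le_pow_left₀ (by norm_num) (by norm_num) n
  have h4 : (2:ℝ) ^ n * (1/2 : ℝ) ^ k ≤ 4 ^ n * (1/2 : ℝ) ^ k :=
    mul_le_mul_of_nonneg_right h3 (xk_nonneg k)
  have h5 : 0 ≤ (4:ℝ) ^ n * (1/2 : ℝ) ^ k := by positivity
  have h6 : (1 - (1/2 : ℝ) ^ k) ^ (4 ^ n) ≤ 1 :=
    pow_le_one₀ (by linarith [xk_le_one k]) (by linarith [xk_nonneg k])
  nlinarith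

lemma ak_half (n k : ℕ) (hn : 1 ≤ n) (hk : n ≤ k) : (1 - 1 / ((n : ℝ) + 1)) ^ k ≤ 1 / 2 := by
  have hn0 : (0:ℝ) < n := by exact_mod_cast hn
  have h1 : (1 - 1 / ((n : ℝ) + 1)) ^ k ≤ (1 - 1 / ((n : ℝ) + 1)) ^ n :=
    pow_le_pow_of_le_one (an_nonneg n) (an_le_one n) hk
  have h2 : (2:ℝ) ≤ (1 + 1 / (n:ℝ)) ^ n := by
    have := one_add_mul_le_pow (a := 1 / (n:ℝ)) (by have : (0:ℝ) < 1 / (n:ℝ) := by positivity
                                                    linarith) n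
    have h3 : (n:ℝ) * (1 / (n:ℝ)) = 1 := by field_simp
    rw [h3] at this
    linarith
  have h4 : (1 - 1 / ((n : ℝ) + 1)) * (1 + 1 / (n:ℝ)) = 1 := by field_simp; ring
  have h5 : (1 - 1 / ((n : ℝ) + 1)) ^ n * (1 + 1 / (n:ℝ)) ^ n = 1 := by
    rw [← mul_pow, h4, one_pow]
  have h6 : 0 ≤ (1 - 1 / ((n : ℝ) + 1)) ^ n := ak_nonneg n n
  nlinarith

lemma ak_ninth (n k : ℕ) (hn : 1 ≤ n) (hk : k ≤ 2 * n) : 1 / 9 ≤ (1 - 1 / ((n : ℝ) + 1)) ^ k := by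
  have hn0 : (0:ℝ) < n := by exact_mod_cast hn
  have h1 : (1 - 1 / ((n : ℝ) + 1)) ^ (2 * n) ≤ (1 - 1 / ((n : ℝ) + 1)) ^ k :=
    pow_le_pow_of_le_one (an_nonneg n) (an_le_one n) hk
  have h2 : (1 + 1 / (n:ℝ)) ^ (2 * n) ≤ 9 := by
    have h3 : 1 + 1 / (n:ℝ) ≤ Real.exp (1 / (n:ℝ)) := by
      have := Real.add_one_le_exp (1 / (n:ℝ))
      linarith
    calc (1 + 1 / (n:ℝ)) ^ (2 * n) ≤ (Real.exp (1 / (n:ℝ))) ^ (2 * n) :=
          pow_le_pow_left₀ (by positivity) h3 _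
      _ = Real.exp 1 ^ 2 := by
          rw [← Real.exp_nat_mul, ← Real.exp_nat_mul]
          congr 1
          push_cast
          field_simp
      _ ≤ 3 ^ 2 := pow_le_pow_left₀ (Real.exp_pos 1).le Real.exp_one_lt_three.le 2
      _ = 9 := by norm_num
  have h4 : (1 - 1 / ((n : ℝ) + 1)) * (1 + 1 / (n:ℝ)) = 1 := by field_simp; ring
  have h5 : (1 - 1 / ((n : ℝ) + 1)) ^ (2 * n) * (1 + 1 / (n:ℝ)) ^ (2 * n) = 1 := by
    rw [← mul_pow, h4, one_pow]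
  have h6 : 0 ≤ (1 - 1 / ((n : ℝ) + 1)) ^ (2 * n) := ak_nonneg n _
  nlinarith

lemma D_le_three_quarters (n k : ℕ) (hn : 1 ≤ n) (hk : n + 2 ≤ k) : D n k ≤ 3 / 4 := by
  have h1 := D_upper1 n k
  have h2 := ak_half n k hn (by omega)
  have h3 : (2:ℝ) ^ n * (1/2 : ℝ) ^ k ≤ 1 / 4 := by
    have h4 : (1/2 : ℝ) ^ k ≤ (1/2 : ℝ) ^ (n + 2) :=
      pow_le_pow_of_le_one (by norm_num) (by norm_num) hk
    have h5 : (2:ℝ) ^ n * (1/2 : ℝ) ^ (n + 2) = 1 / 4 := by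
      rw [pow_add, ← mul_assoc, ← mul_pow]; norm_num
    have h6 : (0:ℝ) ≤ 2 ^ n := by positivity
    nlinarith
  linarith

lemma D_lowerJ (n k : ℕ) : (1 - 4 ^ n / (8 ^ n + 1 : ℝ)) *
    ((1 - 1 / ((n : ℝ) + 1)) ^ k * (1 - Real.exp (-(4 ^ n * (1/2 : ℝ) ^ k)))) ≤ D n k := by
  unfold D
  have h := tv_lowerJ (Z := Zn n) (I := Fin (2 ^ n)) (J := Fin (4 ^ n))
    ((1 - 1 / ((n : ℝ) + 1)) ^ k) ((1/2 : ℝ) ^ k)
  refine le_trans ?_ h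
  rw [card_Zn]
  simp only [Fintype.card_fin]
  push_cast
  have h8 : (0:ℝ) < 8 ^ n + 1 := by positivity
  have hle : (1:ℝ) / (8 ^ n + 1) ≤ 1 := by
    rw [div_le_one h8]
    have : (0:ℝ) ≤ 8 ^ n := by positivity
    linarith
  have h1 := bern (1 / (8 ^ n + 1 : ℝ)) hle (4 ^ n)
  push_cast at h1
  have h2 : (4:ℝ) ^ n * (1 / (8 ^ n + 1 : ℝ)) = 4 ^ n / (8 ^ n + 1 : ℝ) := by ring
  rw [h2] at h1
  have h3 := pow_le_exp ((1/2 : ℝ) ^ k) (xk_le_one k) (4 ^ n)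
  push_cast at h3
  have h4 : (0:ℝ) ≤ (1 - 1 / (8 ^ n + 1 : ℝ)) ^ (4 ^ n) := pow_nonneg (by linarith) _
  have h5 : 0 ≤ 1 - Real.exp (-(4 ^ n * (1/2 : ℝ) ^ k)) := by
    have : Real.exp (-(4 ^ n * (1/2 : ℝ) ^ k)) ≤ 1 := by
      rw [Real.exp_le_one_iff]
      have : 0 ≤ (4:ℝ) ^ n * (1/2 : ℝ) ^ k := by positivity
      linarith
    linarith
  apply mul_le_mul h1 _ (mul_nonneg (ak_nonneg n k) h5) h4
  apply mul_le_mul_of_nonneg_left _ (ak_nonneg n k)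
  linarith

lemma D_lowerI (n k : ℕ) : (1 - 2 ^ n / (8 ^ n + 1 : ℝ)) *
    (1 - Real.exp (-(2 ^ n * (1/2 : ℝ) ^ k))) ≤ D n k := by
  unfold D
  have h := tv_lowerI (Z := Zn n) (I := Fin (2 ^ n)) (J := Fin (4 ^ n))
    ((1 - 1 / ((n : ℝ) + 1)) ^ k) ((1/2 : ℝ) ^ k)
  refine le_trans ?_ h
  rw [card_Zn]
  simp only [Fintype.card_fin]
  push_cast
  have h8 : (0:ℝ) < 8 ^ n + 1 := by positivity
  have hle : (1:ℝ) / (8 ^ n + 1) ≤ 1 := by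
    rw [div_le_one h8]
    have : (0:ℝ) ≤ 8 ^ n := by positivity
    linarith
  have h1 := bern (1 / (8 ^ n + 1 : ℝ)) hle (2 ^ n)
  push_cast at h1
  have h2 : (2:ℝ) ^ n * (1 / (8 ^ n + 1 : ℝ)) = 2 ^ n / (8 ^ n + 1 : ℝ) := by ring
  rw [h2] at h1
  have h3 := pow_le_exp ((1/2 : ℝ) ^ k) (xk_le_one k) (2 ^ n)
  push_cast at h3
  have h4 : (0:ℝ) ≤ (1 - 1 / (8 ^ n + 1 : ℝ)) ^ (2 ^ n) := pow_nonneg (by linarith) _
  have h5 : 0 ≤ 1 - Real.exp (-(2 ^ n * (1/2 : ℝ) ^ k)) := by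
    have : Real.exp (-(2 ^ n * (1/2 : ℝ) ^ k)) ≤ 1 := by
      rw [Real.exp_le_one_iff]
      have : 0 ≤ (2:ℝ) ^ n * (1/2 : ℝ) ^ k := by positivity
      linarith
    linarith
  apply mul_le_mul h1 _ h5 h4
  linarith

lemma D_ge (n k : ℕ) (hn : 1 ≤ n) (hk : k ≤ 2 * n) : 1 / 36 ≤ D n k := by
  refine le_trans ?_ (D_lowerJ n k)
  have h1 : 1 / 2 ≤ 1 - 4 ^ n / (8 ^ n + 1 : ℝ) := by
    have h2 : (4:ℝ) ^ n / (8 ^ n + 1) ≤ 1 / 2 := by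
      rw [div_le_iff₀ (by positivity)]
      have h3 : (8:ℝ) ^ n = 4 ^ n * 2 ^ n := by rw [← mul_pow]; norm_num
      have h4 : (2:ℝ) ≤ 2 ^ n := by
        calc (2:ℝ) = 2 ^ 1 := by norm_num
          _ ≤ 2 ^ n := pow_le_pow_right₀ (by norm_num) hn
      have h5 : (0:ℝ) < 4 ^ n := by positivity
      rw [h3]
      nlinarith
    linarith
  have h2 := ak_ninth n k hn hk
  have h3 : 1 / 2 ≤ 1 - Real.exp (-(4 ^ n * (1/2 : ℝ) ^ k)) := by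
    have h4 : 1 ≤ (4:ℝ) ^ n * (1/2 : ℝ) ^ k := by
      have h5 : (1/2 : ℝ) ^ (2 * n) ≤ (1/2 : ℝ) ^ k :=
        pow_le_pow_of_le_one (by norm_num) (by norm_num) hk
      have h6 : (4:ℝ) ^ n * (1/2 : ℝ) ^ (2 * n) = 1 := by
        rw [pow_mul, ← mul_pow]; norm_num
      have h7 : (0:ℝ) ≤ 4 ^ n := by positivity
      nlinarith
    have h8 : Real.exp (-(4 ^ n * (1/2 : ℝ) ^ k)) ≤ Real.exp (-1) := by
      apply Real.exp_le_exp.mpr; linarith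
    have h9 : Real.exp (-1) ≤ 1 / 2 := by
      rw [Real.exp_neg, inv_eq_one_div]
      apply one_div_le_one_div_of_le (by norm_num)
      have := Real.add_one_le_exp (1:ℝ)
      linarith
    linarith
  have h5 : (0:ℝ) ≤ (1 - 1 / ((n : ℝ) + 1)) ^ k := ak_nonneg n k
  calc (1:ℝ) / 36 = 1 / 2 * (1 / 9 * (1 / 2)) := by norm_num
    _ ≤ (1 - 4 ^ n / (8 ^ n + 1 : ℝ)) *
    ((1 - 1 / ((n : ℝ) + 1)) ^ k * (1 - Real.exp (-(4 ^ n * (1/2 : ℝ) ^ k)))) := by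
      apply mul_le_mul h1 _ (by norm_num) (by linarith)
      apply mul_le_mul h2 h3 (by norm_num) h5

lemma D_le_one (n k : ℕ) : D n k ≤ 1 := by
  unfold D
  have h := tv_upper (Z := Zn n) (I := Fin (2 ^ n)) (J := Fin (4 ^ n))
    ((1 - 1 / ((n : ℝ) + 1)) ^ k) ((1/2 : ℝ) ^ k) (ak_nonneg n k) (ak_le_one n k)
    (xk_nonneg k) (xk_le_one k)
  refine le_trans h ?_
  have h1 : (0:ℝ) ≤ (1 - (1/2:ℝ) ^ k) ^ (Fintype.card (Fin (2 ^ n))) :=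
    pow_nonneg (by linarith [xk_le_one k]) _
  have h2 : (1 - (1/2:ℝ) ^ k) ^ (Fintype.card (Fin (4 ^ n))) ≤ 1 :=
    pow_le_one₀ (by linarith [xk_le_one k]) (by linarith [xk_nonneg k])
  have h20 : 0 ≤ (1 - (1/2:ℝ) ^ k) ^ (Fintype.card (Fin (4 ^ n))) :=
    pow_nonneg (by linarith [xk_le_one k]) _
  have h3 := ak_nonneg n k
  have h4 := ak_le_one n k
  have h5 : 0 ≤ 1 - (1 - 1 / ((n : ℝ) + 1)) ^ k * (1 - (1 - (1/2:ℝ) ^ k) ^ (Fintype.card (Fin (4 ^ n)))) := by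
    nlinarith
  nlinarith [mul_nonneg h1 h5]

lemma D_nonneg (n k : ℕ) : 0 ≤ D n k := by
  unfold D tv
  positivity

/-- At time `3 n` the distance tends to zero. -/
lemma D_tendsto_zero : Tendsto (fun n => D n (3 * n)) atTop (𝓝 0) := by
  have h1 : ∀ n, D n (3 * n) ≤ 2 * (1/2 : ℝ) ^ n := by
    intro n
    have h := D_upper2 n (3 * n)
    have h2 : (4:ℝ) ^ n * (1/2 : ℝ) ^ (3 * n) = (1/2 : ℝ) ^ n := by
      rw [pow_mul, ← mul_pow]; norm_num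
    rw [h2] at h
    exact h
  have h2 : Tendsto (fun n : ℕ => 2 * (1/2 : ℝ) ^ n) atTop (𝓝 0) := by
    have := (tendsto_pow_atTop_nhds_zero_of_lt_one (r := (1/2 : ℝ)) (by norm_num) (by norm_num)).const_mul 2
    simpa using this
  exact squeeze_zero (fun n => D_nonneg n _) h1 h2

/-- Before time `n / 2` the distance tends to one. -/
lemma D_tendsto_one : Tendsto (fun n => D n (n / 2)) atTop (𝓝 1) := by
  have h1 : ∀ n : ℕ, (1 - (1/4 : ℝ) ^ n) * (1 - Real.exp (-(n / 2 : ℝ))) ≤ D n (n / 2) := by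
    intro n
    refine le_trans ?_ (D_lowerI n (n / 2))
    have h8 : (2:ℝ) ^ n / (8 ^ n + 1) ≤ (1/4 : ℝ) ^ n := by
      rw [div_le_iff₀ (by positivity)]
      have h3 : (1/4 : ℝ) ^ n * 8 ^ n = 2 ^ n := by rw [← mul_pow]; norm_num
      have h4 : (0:ℝ) ≤ (1/4 : ℝ) ^ n := by positivity
      nlinarith
    have h9 : (1/4 : ℝ) ^ n ≤ 1 := pow_le_one₀ (by norm_num) (by norm_num)
    have h10 : Real.exp (-(2 ^ n * (1/2 : ℝ) ^ (n / 2))) ≤ Real.exp (-(n / 2 : ℝ)) := by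
      apply Real.exp_le_exp.mpr
      have h11 : (n / 2 : ℝ) ≤ 2 ^ n * (1/2 : ℝ) ^ (n / 2) := by
        have h12 : (2:ℝ) ^ n * (1/2 : ℝ) ^ (n / 2) = 2 ^ (n - n / 2) := by
          have h13 : (2:ℝ) ^ n = 2 ^ (n - n / 2) * 2 ^ (n / 2) := by
            rw [← pow_add]; congr 1; omega
          rw [h13, mul_assoc, ← mul_pow]; norm_num
        rw [h12]
        have h14 : n - n / 2 < 2 ^ (n - n / 2) := Nat.lt_two_pow_self
        have h15 : ((n - n / 2 : ℕ) : ℝ) ≤ 2 ^ (n - n / 2) := by exact_mod_cast h14.le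
        have h16 : (n / 2 : ℝ) ≤ ((n - n / 2 : ℕ) : ℝ) := by
          have h17 : n ≤ 2 * (n - n / 2) := by omega
          have h18 : (n : ℝ) ≤ 2 * ((n - n / 2 : ℕ) : ℝ) := by exact_mod_cast h17
          linarith
        linarith
      linarith
    have h11 : Real.exp (-(n / 2 : ℝ)) ≤ 1 := by
      rw [Real.exp_le_one_iff]
      have : (0:ℝ) ≤ n := Nat.cast_nonneg n
      linarith
    have h12 : 0 ≤ 1 - Real.exp (-(2 ^ n * (1/2 : ℝ) ^ (n / 2))) := by linarith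
    nlinarith
  have h2 : Tendsto (fun n : ℕ => (1 - (1/4 : ℝ) ^ n) * (1 - Real.exp (-(n / 2 : ℝ)))) atTop (𝓝 1) := by
    have h3 : Tendsto (fun n : ℕ => (1/4 : ℝ) ^ n) atTop (𝓝 0) :=
      tendsto_pow_atTop_nhds_zero_of_lt_one (by norm_num) (by norm_num)
    have h4 : Tendsto (fun n : ℕ => Real.exp (-(n / 2 : ℝ))) atTop (𝓝 0) := by
      have h5 : Tendsto (fun n : ℕ => (n / 2 : ℝ)) atTop atTop :=
        tendsto_natCast_atTop_atTop.atTop_div_const (by norm_num)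
      exact Real.tendsto_exp_neg_atTop_nhds_zero.comp h5
    have h6 := (tendsto_const_nhds (x := (1:ℝ)).sub h3).mul (tendsto_const_nhds (x := (1:ℝ)).sub h4)
    simpa using h6
  exact tendsto_of_tendsto_of_tendsto_of_le_of_le h2 tendsto_const_nhds h1 (fun n => D_le_one n _)

/-- There is no cut-off. -/
lemma no_cutoff (s : ℕ → ℝ) (hs : Tendsto s atTop atTop)
    (hc : ∀ ε : ℝ, 0 < ε → ε < 1 →
        Tendsto (fun n => D n ⌊(1 + ε) * s n⌋₊) atTop (𝓝 0) ∧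
        Tendsto (fun n => D n ⌊(1 - ε) * s n⌋₊) atTop (𝓝 1)) : False := by
  obtain ⟨h0, h1⟩ := hc (1/10) (by norm_num) (by norm_num)
  have e0 : ∀ᶠ n in atTop, D n ⌊(1 + 1/10) * s n⌋₊ < 1 / 36 :=
    h0.eventually (gt_mem_nhds (by norm_num))
  have e1 : ∀ᶠ n in atTop, 3 / 4 < D n ⌊(1 - 1/10) * s n⌋₊ :=
    h1.eventually (lt_mem_nhds (by norm_num))
  have e2 : ∀ᶠ n : ℕ in atTop, 10 ≤ n := eventually_ge_atTop 10
  have e3 : ∀ᶠ n in atTop, 0 ≤ s n := hs.eventually_ge_atTop 0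
  obtain ⟨n, he0, he1, he2, he3⟩ := (e0.and (e1.and (e2.and e3))).exists
  have f0 : 2 * n < ⌊(1 + 1/10) * s n⌋₊ := by
    by_contra hcon
    push Not at hcon
    have := D_ge n _ (by omega) hcon
    linarith
  have f1 : ⌊(1 - 1/10) * s n⌋₊ < n + 2 := by
    by_contra hcon
    push Not at hcon
    have := D_le_three_quarters n _ (by omega) hcon
    linarith
  have g0 : ((2 * n : ℕ) : ℝ) ≤ (1 + 1/10) * s n := by
    refine le_trans ?_ (Nat.floor_le (by positivity))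
    exact_mod_cast f0.le
  have g1 : (1 - 1/10) * s n < ((n + 2 : ℕ) : ℝ) := by
    refine lt_of_lt_of_le (Nat.lt_floor_add_one _) ?_
    have : ⌊(1 - 1/10) * s n⌋₊ + 1 ≤ n + 2 := by omega
    exact_mod_cast this
  push_cast at g0 g1
  have hn10 : (10:ℝ) ≤ n := by exact_mod_cast he2
  nlinarith

lemma pn_nonneg (n : ℕ) (g : Gn n) : 0 ≤ pn n g :=
  R_nonneg _ _ (an_nonneg n) (an_le_one n) (by norm_num) (by norm_num) g

lemma pn_sum (n : ℕ) : ∑ g : Gn n, pn n g = 1 := R_sum _ _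

lemma D_eq (n k : ℕ) : D n k = (1 / 2 : ℝ) * ∑ g : Gn n,
        |(∑ f ∈ (Finset.univ : Finset (Fin k → Gn n)).filter (fun f => (List.ofFn f).prod = g),
            ∏ i, pn n (f i)) - 1 / (Fintype.card (Gn n) : ℝ)| := by
  unfold D tv
  congr 1
  apply Finset.sum_congr rfl
  intro g _
  congr 2
  rw [← R_pw]
  rfl

end Pool.Agent.TH994.PreCut
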