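import Mathlib

set_option autoImplicit false

namespace Pool.Agent.TH994.OddStars

/-- `IsMonoStar c r v a S`: `S` is a set of `r` vertices other than `v`, all joined to `v` in colour
`a`: a monochromatic star `K_{1,r}` with centre `v`. -/
def IsMonoStar {n : ℕ} {C : Type} (c : Fin n → Fin n → C) (r : ℕ) (v : Fin n) (a : C)
    (S : Finset (Fin n)) : Prop :=
  S.card = r ∧ v ∉ S ∧ ∀ w ∈ S, c v w = a

/-- The set of `n` for which some `k`-list assignment of the edges of `K_n` (a symmetric family of
sets `L v w` of `k` colours) is such that every colouring from the lists contains a monochromatic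
`K_{1,r}`. -/
def ListForced (r k : ℕ) : Set ℕ :=
  {n | ∃ L : Fin n → Fin n → Finset ℕ,
    (∀ v w : Fin n, v ≠ w → L v w = L w v ∧ (L v w).card = k) ∧
    ∀ c : Fin n → Fin n → ℕ, (∀ v w : Fin n, v ≠ w → c v w = c w v ∧ c v w ∈ L v w) →
      ∃ v a S, IsMonoStar c r v a S}

/-- The set of `n` for which every colouring of the edges of `K_n` with `k` colours contains a
monochromatic `K_{1,r}`. -/
def Forced (r k : ℕ) : Set ℕ :=
  {n | ∀ c : Fin n → Fin n → Fin k, (∀ v w : Fin n, v ≠ w → c v w = c w v) →
      ∃ v a S, IsMonoStar c r v a S}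

/-- The list Ramsey number of the star `K_{1,r}` for `k` colours. -/
noncomputable def listRamsey (r k : ℕ) : ℕ := sInf (ListForced r k)

/-- The Ramsey number of the star `K_{1,r}` for `k` colours. -/
noncomputable def ramsey (r k : ℕ) : ℕ := sInf (Forced r k)

section Galvin

variable {α V C : Type} [DecidableEq α] [DecidableEq V] [DecidableEq C]

/-- Kernels (stable matchings) in a bipartite graph whose edges carry a rank `p`: at the first end
the larger rank is preferred, at the second end the smaller one. -/
theorem kernel (o i : α → V) (p : α → ℕ)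
    (hop : ∀ e f, o e = o f → p e = p f → e = f) (hip : ∀ e f, i e = i f → p e = p f → e = f) :
    ∀ (m : ℕ) (F : Finset α), F.card = m → ∃ K ⊆ F,
      (∀ e ∈ K, ∀ f ∈ K, e ≠ f → o e ≠ o f ∧ i e ≠ i f) ∧
      ∀ e ∈ F, e ∉ K → (∃ f ∈ K, o f = o e ∧ p e < p f) ∨ (∃ f ∈ K, i f = i e ∧ p f < p e) := by
  intro m
  induction m with
  | zero =>
    intro F hF
    rw [Finset.card_eq_zero] at hF
    subst hF
    exact ⟨∅, Finset.Subset.refl _, by simp, by simp⟩
  | succ m ih =>
    intro F hF
    classical
    set M : Finset α := F.filter (fun e => ∀ f ∈ F, o f = o e → p f ≤ p e) with hM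
    have hMo : ∀ e ∈ M, ∀ f ∈ M, e ≠ f → o e ≠ o f := by
      intro e he f hf hne heq
      rw [hM, Finset.mem_filter] at he hf
      exact hne (hop e f heq (le_antisymm (hf.2 e he.1 heq) (he.2 f hf.1 heq.symm)))
    by_cases h : ∀ e ∈ M, ∀ f ∈ M, e ≠ f → i e ≠ i f
    · refine ⟨M, Finset.filter_subset _ _, fun e he f hf hne => ⟨hMo e he f hf hne, h e he f hf hne⟩, ?_⟩
      intro e he heM
      left
      obtain ⟨g, hg, hmax⟩ := Finset.exists_max_image (F.filter (fun f => o f = o e)) p
        ⟨e, Finset.mem_filter.2 ⟨he, rfl⟩⟩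
      rw [Finset.mem_filter] at hg
      refine ⟨g, ?_, hg.2, ?_⟩
      · rw [hM, Finset.mem_filter]
        refine ⟨hg.1, fun f hf hfo => hmax f (Finset.mem_filter.2 ⟨hf, hfo.trans hg.2⟩)⟩
      · by_contra hcon
        push Not at hcon
        apply heM
        rw [hM, Finset.mem_filter]
        refine ⟨he, fun f hf hfo => le_trans (hmax f (Finset.mem_filter.2 ⟨hf, hfo⟩)) hcon⟩
    · push Not at h
      -- two maximal edges with the same second end
      have key : ∃ e ∈ M, ∃ f ∈ M, i e = i f ∧ p e < p f := by
        obtain ⟨e, he, f, hf, hne, hi⟩ := h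
        rcases lt_trichotomy (p e) (p f) with h1 | h1 | h1
        · exact ⟨e, he, f, hf, hi, h1⟩
        · exact absurd (hip e f hi h1) hne
        · exact ⟨f, hf, e, he, hi.symm, h1⟩
      obtain ⟨e, he, f, hf, hi, hlt⟩ := key
      have heF : e ∈ F := (Finset.mem_filter.1 he).1
      have hfF : f ∈ F := (Finset.mem_filter.1 hf).1
      have hemax := (Finset.mem_filter.1 he).2
      have hef : e ≠ f := by
        intro hh
        subst hh
        exact lt_irrefl _ hlt
      obtain ⟨K, hKF, hK1, hK2⟩ := ih (F.erase f) (by rw [Finset.card_erase_of_mem hfF, hF]; rfl)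
      refine ⟨K, hKF.trans (Finset.erase_subset _ _), hK1, ?_⟩
      intro g hg hgK
      by_cases hgf : g = f
      · subst hgf
        right
        by_cases heK : e ∈ K
        · exact ⟨e, heK, hi, hlt⟩
        · rcases hK2 e (Finset.mem_erase.2 ⟨hef, heF⟩) heK with ⟨q, hq, hq1, hq2⟩ | ⟨q, hq, hq1, hq2⟩
          · exact absurd (hemax q (Finset.mem_of_mem_erase (hKF hq)) hq1) (not_le.2 hq2)
          · exact ⟨q, hq, hq1.trans hi, hq2.trans hlt⟩
      · exact hK2 g (Finset.mem_erase.2 ⟨hgf, hg⟩) hgK

/-- Galvin's argument. -/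
theorem galvin [Inhabited C] (o i : α → V) (p : α → ℕ)
    (hop : ∀ e f, o e = o f → p e = p f → e = f) (hip : ∀ e f, i e = i f → p e = p f → e = f) :
    ∀ (m : ℕ) (F : Finset α) (L : α → Finset C), F.card = m →
      (∀ e ∈ F, (F.filter (fun f => o f = o e ∧ p e < p f)).card +
        (F.filter (fun f => i f = i e ∧ p f < p e)).card < (L e).card) →
      ∃ φ : α → C, ∀ e ∈ F, φ e ∈ L e ∧
        ∀ f ∈ F, f ≠ e → φ f = φ e → o f ≠ o e ∧ i f ≠ i e := by
  intro m
  induction m using Nat.strong_induction_on with
  | _ m ih =>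
    intro F L hF hL
    rcases F.eq_empty_or_nonempty with rfl | ⟨e0, he0⟩
    · exact ⟨fun _ => default, by simp⟩
    · have hne : (L e0).Nonempty := by
        rw [← Finset.card_pos]
        exact lt_of_le_of_lt (Nat.zero_le _) (hL e0 he0)
      obtain ⟨c, hc⟩ := hne
      set Fc : Finset α := F.filter (fun e => c ∈ L e) with hFc
      obtain ⟨K, hKF, hK1, hK2⟩ := kernel o i p hop hip Fc.card Fc rfl
      have hKF' : K ⊆ F := hKF.trans (Finset.filter_subset _ _)
      have hKne : K.Nonempty := by
        by_contra hcon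
        rw [Finset.not_nonempty_iff_eq_empty] at hcon
        subst hcon
        rcases hK2 e0 (Finset.mem_filter.2 ⟨he0, hc⟩) (by simp) with ⟨f, hf, _⟩ | ⟨f, hf, _⟩
        · simp at hf
        · simp at hf
      have hlt : (F \ K).card < m := by
        rw [← hF]
        apply Finset.card_lt_card
        refine ⟨Finset.sdiff_subset, fun hsub => ?_⟩
        obtain ⟨x, hx⟩ := hKne
        exact (Finset.mem_sdiff.1 (hsub (hKF' hx))).2 hx
      obtain ⟨φ, hφ⟩ := ih (F \ K).card hlt (F \ K) (fun e => (L e).erase c) rfl (by
        intro e he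
        rw [Finset.mem_sdiff] at he
        have h1 : (((F \ K).filter (fun f => o f = o e ∧ p e < p f))) ⊆
            (F.filter (fun f => o f = o e ∧ p e < p f)) :=
          Finset.filter_subset_filter _ Finset.sdiff_subset
        have h2 : (((F \ K).filter (fun f => i f = i e ∧ p f < p e))) ⊆
            (F.filter (fun f => i f = i e ∧ p f < p e)) :=
          Finset.filter_subset_filter _ Finset.sdiff_subset
        have hb := hL e he.1
        by_cases hce : c ∈ L e
        · rw [Finset.card_erase_of_mem hce]
          rcases hK2 e (Finset.mem_filter.2 ⟨he.1, hce⟩) he.2 with ⟨f, hf, hf1, hf2⟩ | ⟨f, hf, hf1, hf2⟩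
          · have h3 : (((F \ K).filter (fun f => o f = o e ∧ p e < p f))).card <
                (F.filter (fun f => o f = o e ∧ p e < p f)).card := by
              apply Finset.card_lt_card
              refine ⟨h1, fun hsub => ?_⟩
              have := hsub (Finset.mem_filter.2 ⟨hKF' hf, hf1, hf2⟩)
              rw [Finset.mem_filter, Finset.mem_sdiff] at this
              exact this.1.2 hf
            have := Finset.card_le_card h2
            omega
          · have h3 : (((F \ K).filter (fun f => i f = i e ∧ p f < p e))).card <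
                (F.filter (fun f => i f = i e ∧ p f < p e)).card := by
              apply Finset.card_lt_card
              refine ⟨h2, fun hsub => ?_⟩
              have := hsub (Finset.mem_filter.2 ⟨hKF' hf, hf1, hf2⟩)
              rw [Finset.mem_filter, Finset.mem_sdiff] at this
              exact this.1.2 hf
            have := Finset.card_le_card h1
            omega
        · rw [Finset.erase_eq_of_notMem hce]
          have := Finset.card_le_card h1
          have := Finset.card_le_card h2
          omega)
      refine ⟨fun e => if e ∈ K then c else φ e, fun e he => ?_⟩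
      by_cases heK : e ∈ K
      · refine ⟨by simpa [heK] using (Finset.mem_filter.1 (hKF heK)).2, fun f hf hfe hcol => ?_⟩
        by_cases hfK : f ∈ K
        · exact hK1 f hfK e heK hfe
        · exfalso
          simp only [heK, hfK, if_true, if_false] at hcol
          have := (hφ f (Finset.mem_sdiff.2 ⟨hf, hfK⟩)).1
          rw [hcol] at this
          simp at this
      · have h0 := hφ e (Finset.mem_sdiff.2 ⟨he, heK⟩)
        refine ⟨by simpa [heK] using (Finset.mem_of_mem_erase h0.1), fun f hf hfe hcol => ?_⟩
        by_cases hfK : f ∈ K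
        · exfalso
          simp only [heK, hfK, if_true, if_false] at hcol
          have := h0.1
          rw [← hcol] at this
          simp at this
        · simp only [heK, hfK, if_false] at hcol
          exact h0.2 f (Finset.mem_sdiff.2 ⟨hf, hfK⟩) hfe hcol

end Galvin

/-- the step from `v` to `w` on the cycle `0, 1, ..., N - 1`. -/
def stp (N v w : ℕ) : ℕ := if v ≤ w then w - v else w + N - v

/-- the vertex reached from `x` after `j + 1` steps on the cycle of length `N`. -/
def nx (N x j : ℕ) : ℕ := if x + j + 1 < N then x + j + 1 else x + j + 1 - N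

/-- The circulant step: for `N = 2 k s + 1` every assignment of `k`-lists to the edges of `K_N` has a
colouring in which every colour has degree at most `2 s` at every vertex. -/
theorem circ (k s D N : ℕ) (hD : D = k * s) (hN : N = 2 * D + 1)
    (L : Fin N → Fin N → Finset ℕ)
    (hL : ∀ v w, v ≠ w → L v w = L w v ∧ (L v w).card = k) :
    ∃ c : Fin N → Fin N → ℕ,
      (∀ v w, v ≠ w → c v w = c w v ∧ c v w ∈ L v w) ∧
      ∀ v a (S : Finset (Fin N)), v ∉ S → (∀ w ∈ S, c v w = a) → S.card ≤ 2 * s := by
  have hNpos : 0 < N := by omega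
  have hnx : ∀ x j : ℕ, x < N → j < D → nx N x j < N := by
    intro x j hx hj
    unfold nx
    split_ifs <;> omega
  -- the lists of the edges
  set F : Finset (Fin N × ℕ) := Finset.univ ×ˢ Finset.range D with hF
  set o : Fin N × ℕ → ℕ := fun e => e.1.val with ho
  set i : Fin N × ℕ → ℕ := fun e => nx N e.1.val e.2 with hi
  set p : Fin N × ℕ → ℕ := fun e => e.2 with hp
  set L' : Fin N × ℕ → Finset (ℕ × ℕ) := fun e =>
    if h : e.2 < D then L e.1 ⟨nx N e.1.val e.2, hnx _ _ e.1.2 h⟩ ×ˢ Finset.range s else ∅ with hL'
  have hop : ∀ e f, o e = o f → p e = p f → e = f := by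
    intro e f h1 h2
    exact Prod.ext (Fin.ext h1) h2
  have hip : ∀ e f, i e = i f → p e = p f → e = f := by
    intro e f h1 h2
    refine Prod.ext (Fin.ext ?_) h2
    simp only [hi, hp, nx] at h1 h2
    have := e.1.2
    have := f.1.2
    rw [h2] at h1
    split_ifs at h1 <;> omega
  have hcard : ∀ e ∈ F, (F.filter (fun f => o f = o e ∧ p e < p f)).card +
        (F.filter (fun f => i f = i e ∧ p f < p e)).card < (L' e).card := by
    intro e he
    rw [hF, Finset.mem_product, Finset.mem_range] at he
    have hj := he.2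
    have hne : e.1 ≠ ⟨nx N e.1.val e.2, hnx _ _ e.1.2 hj⟩ := by
      intro h
      have h1 := congrArg Fin.val h
      simp only [nx] at h1
      have := e.1.2
      split_ifs at h1 <;> omega
    have h3 : (L' e).card = D := by
      simp only [hL', hj, dif_pos, Finset.card_product, Finset.card_range]
      rw [(hL _ _ hne).2, hD]
    have h1 : (F.filter (fun f => o f = o e ∧ p e < p f)).card ≤ (Finset.Ioo e.2 D).card := by
      apply Finset.card_le_card_of_injOn (fun f => f.2)
      · intro f hf
        simp only [Finset.coe_filter, Set.mem_ofPred_eq, hF, Finset.mem_product, Finset.mem_range] at hf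
        simp only [Finset.coe_Ioo, Set.mem_Ioo]
        exact ⟨hf.2.2, hf.1.2⟩
      · intro f hf g hg hfg
        simp only [Finset.coe_filter, Set.mem_ofPred_eq] at hf hg
        exact hop f g (hf.2.1.trans hg.2.1.symm) hfg
    have h2 : (F.filter (fun f => i f = i e ∧ p f < p e)).card ≤ (Finset.range e.2).card := by
      apply Finset.card_le_card_of_injOn (fun f => f.2)
      · intro f hf
        simp only [Finset.coe_filter, Set.mem_ofPred_eq] at hf
        simp only [Finset.coe_range, Set.mem_Iio]
        exact hf.2.2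
      · intro f hf g hg hfg
        simp only [Finset.coe_filter, Set.mem_ofPred_eq] at hf hg
        exact hip f g (hf.2.1.trans hg.2.1.symm) hfg
    rw [Nat.card_Ioo] at h1
    rw [Finset.card_range] at h2
    omega
  obtain ⟨φ, hφ⟩ := galvin o i p hop hip F.card F L' rfl hcard
  -- facts on steps
  have hst : ∀ v w : Fin N, v ≠ w → stp N v w + stp N w v = N ∧ 1 ≤ stp N v w ∧
      nx N v (stp N v w - 1) = w := by
    intro v w hvw
    have h0 : v.val ≠ w.val := fun h => hvw (Fin.ext h)
    have := v.2
    have := w.2
    unfold stp nx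
    refine ⟨?_, ?_, ?_⟩
    · split_ifs <;> omega
    · split_ifs <;> omega
    · split_ifs <;> omega
  have hmem : ∀ v w : Fin N, v ≠ w → stp N v w ≤ D → (v, stp N v w - 1) ∈ F ∧
      (φ (v, stp N v w - 1)).1 ∈ L v w ∧ (φ (v, stp N v w - 1)).2 < s := by
    intro v w hvw hle
    obtain ⟨_, h1, h2⟩ := hst v w hvw
    have hj : stp N v w - 1 < D := by omega
    have hF0 : (v, stp N v w - 1) ∈ F := by
      rw [hF, Finset.mem_product, Finset.mem_range]
      exact ⟨Finset.mem_univ _, hj⟩
    have h3 := (hφ _ hF0).1
    simp only [hL', hj, dif_pos] at h3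
    rw [Finset.mem_product, Finset.mem_range] at h3
    have h4 : (⟨nx N v (stp N v w - 1), hnx _ _ v.2 hj⟩ : Fin N) = w := Fin.ext h2
    rw [h4] at h3
    exact ⟨hF0, h3.1, h3.2⟩
  refine ⟨fun v w => if stp N v w ≤ D then (φ (v, stp N v w - 1)).1 else (φ (w, stp N w v - 1)).1,
    ?_, ?_⟩
  · intro v w hvw
    obtain ⟨h1, h2, _⟩ := hst v w hvw
    by_cases h : stp N v w ≤ D
    · have h' : ¬ stp N w v ≤ D := by omega
      simp only [h, h', if_true, if_false]
      exact ⟨trivial, (hmem v w hvw h).2.1⟩
    · have h' : stp N w v ≤ D := by omega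
      simp only [h, h', if_true, if_false]
      refine ⟨trivial, ?_⟩
      rw [(hL v w hvw).1]
      exact (hmem w v hvw.symm h').2.1
  · intro v a S hvS hS
    have hne : ∀ w ∈ S, v ≠ w := fun w hw h => hvS (h ▸ hw)
    have hsplit : S.card = (S.filter (fun w : Fin N => stp N v w ≤ D)).card +
        (S.filter (fun w : Fin N => ¬ stp N v w ≤ D)).card :=
      (Finset.card_filter_add_card_filter_not _).symm
    have h1 : (S.filter (fun w : Fin N => stp N v w ≤ D)).card ≤ (Finset.range s).card := by
      apply Finset.card_le_card_of_injOn (fun w : Fin N => (φ (v, stp N v w - 1)).2)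
      · intro w hw
        simp only [Finset.coe_filter, Set.mem_ofPred_eq] at hw
        simp only [Finset.coe_range, Set.mem_Iio]
        exact (hmem v w (hne w hw.1) hw.2).2.2
      · intro w hw u hu hwu
        simp only [Finset.coe_filter, Set.mem_ofPred_eq] at hw hu
        by_contra hwne
        have c1 := hS w hw.1
        have c2 := hS u hu.1
        simp only [hw.2, hu.2, if_true] at c1 c2
        have hww := hst v w (hne w hw.1)
        have huu := hst v u (hne u hu.1)
        have hdiff : (v, stp N v u - 1) ≠ (v, stp N v w - 1) := by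
          intro h
          have h4 := congrArg Prod.snd h
          simp only at h4
          have h5 := huu.2.2
          rw [h4, hww.2.2] at h5
          exact hwne (Fin.ext h5)
        exact ((hφ _ (hmem v w (hne w hw.1) hw.2).1).2 _ (hmem v u (hne u hu.1) hu.2).1 hdiff
          (Prod.ext (c2.trans c1.symm) hwu.symm)).1 rfl
    have h2 : (S.filter (fun w : Fin N => ¬ stp N v w ≤ D)).card ≤ (Finset.range s).card := by
      apply Finset.card_le_card_of_injOn (fun w : Fin N => (φ (w, stp N w v - 1)).2)
      · intro w hw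
        simp only [Finset.coe_filter, Set.mem_ofPred_eq] at hw
        simp only [Finset.coe_range, Set.mem_Iio]
        have := hst v w (hne w hw.1)
        exact (hmem w v (hne w hw.1).symm (by omega)).2.2
      · intro w hw u hu hwu
        simp only [Finset.coe_filter, Set.mem_ofPred_eq] at hw hu
        by_contra hwne
        have c1 := hS w hw.1
        have c2 := hS u hu.1
        simp only [hw.2, hu.2, if_false] at c1 c2
        have hww := hst w v (hne w hw.1).symm
        have huu := hst u v (hne u hu.1).symm
        have hww' := hst v w (hne w hw.1)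
        have huu' := hst v u (hne u hu.1)
        have hdiff : (u, stp N u v - 1) ≠ (w, stp N w v - 1) := by
          intro h
          exact hwne (congrArg Prod.fst h).symm
        have hi1 : i (u, stp N u v - 1) = i (w, stp N w v - 1) := by
          simp only [hi]
          rw [hww.2.2, huu.2.2]
        exact ((hφ _ (hmem w v (hne w hw.1).symm (by omega)).1).2 _
          (hmem u v (hne u hu.1).symm (by omega)).1 hdiff
          (Prod.ext (c2.trans c1.symm) hwu.symm)).2 hi1
    rw [Finset.card_range] at h1 h2
    omega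

/-- for `n ≤ 2 k s + 1` the number `n` is not forced, not even for lists. -/
theorem not_listForced (k s n : ℕ) (hn : n ≤ 2 * (k * s) + 1) : n ∉ ListForced (2 * s + 1) k := by
  rintro ⟨L, hL, hc⟩
  obtain ⟨c, hc1, hc2⟩ := circ k s (k * s) (2 * (k * s) + 1) rfl rfl
    (fun v w => if h : v.val < n ∧ w.val < n then L ⟨v.val, h.1⟩ ⟨w.val, h.2⟩ else Finset.range k) (by
      intro v w hvw
      by_cases h : v.val < n ∧ w.val < n
      · have h' : w.val < n ∧ v.val < n := ⟨h.2, h.1⟩
        simp only [h, h', dif_pos, and_self]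
        exact hL _ _ (fun hh => hvw (Fin.ext (by simpa using congrArg Fin.val hh)))
      · have h' : ¬ (w.val < n ∧ v.val < n) := fun hh => h ⟨hh.2, hh.1⟩
        simp only [h, h', dif_neg, not_false_eq_true]
        simp)
  obtain ⟨v, a, S, hS1, hS2, hS3⟩ := hc (fun v w => c (Fin.castLE hn v) (Fin.castLE hn w)) (by
    intro v w hvw
    have hne : Fin.castLE hn v ≠ Fin.castLE hn w := fun h => hvw (Fin.castLE_injective hn h)
    have h1 := hc1 _ _ hne
    refine ⟨h1.1, ?_⟩
    have h2 := h1.2
    have h3 : (Fin.castLE hn v).val < n ∧ (Fin.castLE hn w).val < n := by simp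
    rw [dif_pos h3] at h2
    exact h2)
  have h4 := hc2 (Fin.castLE hn v) a (S.map (Fin.castLEEmb hn)) (by
    intro hmem
    rw [Finset.mem_map] at hmem
    obtain ⟨x, hx, hxv⟩ := hmem
    exact hS2 ((Fin.castLE_injective hn hxv) ▸ hx)) (by
    intro w hw
    rw [Finset.mem_map] at hw
    obtain ⟨x, hx, rfl⟩ := hw
    exact hS3 x hx)
  rw [Finset.card_map, hS1] at h4
  omega

/-- pigeonhole: `k (r - 1) + 2` vertices force a monochromatic star. -/
theorem pigeon (k r : ℕ) (hr : 1 ≤ r) (C : Type) [DecidableEq C] (P : Finset C) (hP : P.card ≤ k)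
    (c : Fin (k * (r - 1) + 2) → Fin (k * (r - 1) + 2) → C)
    (hc : ∀ v w, v ≠ w → c v w ∈ P) : ∃ v a S, IsMonoStar c r v a S := by
  have hcard : (Finset.univ.erase (0 : Fin (k * (r - 1) + 2))).card = k * (r - 1) + 1 := by
    rw [Finset.card_erase_of_mem (Finset.mem_univ _)]
    simp
  obtain ⟨a, ha, hlt⟩ := Finset.exists_lt_card_fiber_of_mul_lt_card_of_maps_to
    (s := Finset.univ.erase (0 : Fin (k * (r - 1) + 2))) (t := P) (f := fun w => c 0 w) (n := r - 1)
    (by
      intro w hw
      exact hc 0 w (Finset.ne_of_mem_erase hw).symm)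
    (by
      rw [hcard]
      have := Nat.mul_le_mul_right (r - 1) hP
      omega)
  have hle : r ≤ ((Finset.univ.erase (0 : Fin (k * (r - 1) + 2))).filter (fun w => c 0 w = a)).card := by
    omega
  obtain ⟨S, hS, hScard⟩ := Finset.exists_subset_card_eq hle
  refine ⟨0, a, S, hScard, ?_, ?_⟩
  · intro h0
    have := hS h0
    simp at this
  · intro w hw
    exact (Finset.mem_filter.1 (hS hw)).2

/-- **The list Ramsey number of a star with an odd number of edges equals its Ramsey number, for every
number of colours.** -/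
theorem result (r k : ℕ) (hr : Odd r) (hk : 1 ≤ k) :
    listRamsey r k = ramsey r k ∧ ramsey r k = k * (r - 1) + 2 := by
  obtain ⟨s, rfl⟩ := hr
  have hnot : ∀ n, n ∈ Forced (2 * s + 1) k → 2 * (k * s) + 2 ≤ n := by
    intro n hn
    by_contra hlt
    apply not_listForced k s n (by omega)
    refine ⟨fun _ _ => Finset.range k, fun v w _ => ⟨rfl, by simp⟩, ?_⟩
    intro c hc
    obtain ⟨v, a, S, h1, h2, h3⟩ := hn (fun v w => if h : c v w < k then ⟨c v w, h⟩ else ⟨0, by omega⟩)
      (fun v w hvw => by simp only [(hc v w hvw).1])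
    refine ⟨v, a.val, S, h1, h2, fun w hw => ?_⟩
    have h4 := h3 w hw
    have h5 : c v w < k := by
      have := (hc v w (fun h => h2 (h ▸ hw))).2
      simpa using this
    simp only [h5, dif_pos] at h4
    rw [← h4]
  have hnotL : ∀ n, n ∈ ListForced (2 * s + 1) k → 2 * (k * s) + 2 ≤ n := by
    intro n hn
    by_contra hlt
    exact not_listForced k s n (by omega) hn
  have hval : 2 * (k * s) + 2 = k * (2 * s + 1 - 1) + 2 := by
    rw [Nat.add_sub_cancel]
    ring
  have hin : 2 * (k * s) + 2 ∈ Forced (2 * s + 1) k := by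
    rw [hval]
    intro c hc
    exact pigeon k (2 * s + 1) (by omega) (Fin k) Finset.univ (by simp) c (fun _ _ _ => Finset.mem_univ _)
  have hinL : 2 * (k * s) + 2 ∈ ListForced (2 * s + 1) k := by
    rw [hval]
    refine ⟨fun _ _ => Finset.range k, fun v w _ => ⟨rfl, by simp⟩, ?_⟩
    intro c hc
    exact pigeon k (2 * s + 1) (by omega) ℕ (Finset.range k) (by simp) c (fun v w hvw => (hc v w hvw).2)
  have e1 : ramsey (2 * s + 1) k = 2 * (k * s) + 2 :=
    le_antisymm (Nat.sInf_le hin) (hnot _ (Nat.sInf_mem ⟨_, hin⟩))
  have e2 : listRamsey (2 * s + 1) k = 2 * (k * s) + 2 :=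
    le_antisymm (Nat.sInf_le hinL) (hnotL _ (Nat.sInf_mem ⟨_, hinL⟩))
  exact ⟨e2.trans e1.symm, e1.trans hval⟩

end Pool.Agent.TH994.OddStars
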