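import Mathlib

/-!
Random walks on finite groups: a family with a precut-off (even with distance tending to one before)
and without a cut-off.
-/

set_option autoImplicit false
open Filter Topology Finset

namespace Pool.Agent.TH994.PreCut

section General

variable {G : Type*} [Group G] [Fintype G] [DecidableEq G]

/-- The law at time `k` of the random walk driven by `p` (product of `k` independent steps). -/
noncomputable def pw (p : G → ℝ) (k : ℕ) (g : G) : ℝ :=
  ∑ f ∈ (Finset.univ : Finset (Fin k → G)).filter (fun f => (List.ofFn f).prod = g), ∏ i, p (f i)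

lemma pw_zero (p : G → ℝ) (g : G) : pw p 0 g = if g = 1 then 1 else 0 := by
  unfold pw
  rw [Finset.sum_filter]
  simp only [List.ofFn_zero, List.prod_nil, univ_eq_empty, prod_empty]
  by_cases h : g = 1
  · subst h; simp
  · have h' : ¬ (1 : G) = g := fun h2 => h h2.symm
    simp [h, h']

lemma pw_succ (p : G → ℝ) (k : ℕ) (g : G) :
    pw p (k + 1) g = ∑ h, p h * pw p k (h⁻¹ * g) := by
  unfold pw
  rw [Finset.sum_filter]
  rw [← (Fin.consEquiv (fun _ : Fin (k+1) => G)).sum_comp]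
  rw [Fintype.sum_prod_type]
  apply Finset.sum_congr rfl
  intro h _
  rw [Finset.sum_filter, Finset.mul_sum]
  apply Finset.sum_congr rfl
  intro f _
  simp only [Fin.consEquiv_apply, List.ofFn_succ, Fin.cons_zero, Fin.cons_succ, List.prod_cons,
    Fin.prod_univ_succ]
  by_cases hh : (List.ofFn f).prod = h⁻¹ * g
  · have h1 : h * (List.ofFn f).prod = g := by rw [hh]; group
    simp [hh]
  · have h1 : ¬ h * (List.ofFn f).prod = g := by
      intro h2
      apply hh
      rw [← h2]; group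
    simp [hh, h1]

lemma pw_eq (p : G → ℝ) (R : ℕ → G → ℝ) (h0 : ∀ g, R 0 g = if g = 1 then 1 else 0)
    (hs : ∀ k g, R (k + 1) g = ∑ h, p h * R k (h⁻¹ * g)) (k : ℕ) : ∀ g, pw p k g = R k g := by
  induction k with
  | zero => intro g; rw [pw_zero, h0]
  | succ k ih =>
    intro g
    rw [pw_succ, hs]
    apply Finset.sum_congr rfl
    intro h _
    rw [ih]

end General

section TV

variable {G : Type*} [Fintype G] [Nonempty G]

lemma tv_le (r : G → ℝ) (hr : ∑ g, r g = 1) (δ : ℝ)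
    (h : ∀ g, (1 - δ) * (1 / (Fintype.card G : ℝ)) ≤ r g) (hδ : 0 ≤ δ) :
    (1/2 : ℝ) * ∑ g, |r g - 1 / (Fintype.card G : ℝ)| ≤ δ := by
  have hc : (0:ℝ) < Fintype.card G := by exact_mod_cast Fintype.card_pos
  have h1 : ∀ g, |r g - 1 / (Fintype.card G : ℝ)| ≤
      (r g - 1 / (Fintype.card G : ℝ)) + 2 * δ * (1 / (Fintype.card G : ℝ)) := by
    intro g
    have h2 := h g
    have h3 : 0 ≤ δ * (1 / (Fintype.card G : ℝ)) := by positivity
    rw [abs_le]
    constructor <;> nlinarith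
  have h4 : ∑ g, |r g - 1 / (Fintype.card G : ℝ)| ≤
      ∑ g, ((r g - 1 / (Fintype.card G : ℝ)) + 2 * δ * (1 / (Fintype.card G : ℝ))) :=
    Finset.sum_le_sum (fun g _ => h1 g)
  rw [Finset.sum_add_distrib, Finset.sum_sub_distrib, hr] at h4
  simp only [Finset.sum_const, Finset.card_univ, nsmul_eq_mul] at h4
  have h5 : (Fintype.card G : ℝ) * (1 / (Fintype.card G : ℝ)) = 1 := by field_simp
  have h6 : (Fintype.card G : ℝ) * (2 * δ * (1 / (Fintype.card G : ℝ))) = 2 * δ := by
    field_simp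
  rw [h5, h6] at h4
  linarith

lemma tv_ge (r : G → ℝ) (hr : ∑ g, r g = 1) (f : G → ℝ) (hf0 : ∀ g, 0 ≤ f g)
    (hf1 : ∀ g, f g ≤ 1) :
    ∑ g, f g * (1 / (Fintype.card G : ℝ)) - ∑ g, f g * r g ≤
      (1/2 : ℝ) * ∑ g, |r g - 1 / (Fintype.card G : ℝ)| := by
  have hc : (0:ℝ) < Fintype.card G := by exact_mod_cast Fintype.card_pos
  have h0 : ∑ g : G, (1 / (Fintype.card G : ℝ) - r g) = 0 := by
    rw [Finset.sum_sub_distrib, hr]
    simp only [Finset.sum_const, Finset.card_univ, nsmul_eq_mul]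
    field_simp; simp
  have h1 : ∑ g, f g * (1 / (Fintype.card G : ℝ)) - ∑ g, f g * r g =
      ∑ g, (f g - 1/2) * (1 / (Fintype.card G : ℝ) - r g) := by
    have h2 : ∑ g, (f g - 1/2) * (1 / (Fintype.card G : ℝ) - r g) =
        ∑ g, (f g * (1 / (Fintype.card G : ℝ)) - f g * r g) -
          (1/2) * ∑ g : G, (1 / (Fintype.card G : ℝ) - r g) := by
      rw [Finset.mul_sum, ← Finset.sum_sub_distrib]
      apply Finset.sum_congr rfl
      intro g _
      ring
    rw [h2, h0, Finset.sum_sub_distrib]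
    ring
  rw [h1, Finset.mul_sum]
  apply Finset.sum_le_sum
  intro g _
  have h3 : |f g - 1/2| ≤ 1/2 := by
    rw [abs_le]; constructor <;> linarith [hf0 g, hf1 g]
  calc (f g - 1/2) * (1 / (Fintype.card G : ℝ) - r g)
      ≤ |(f g - 1/2) * (1 / (Fintype.card G : ℝ) - r g)| := le_abs_self _
    _ = |f g - 1/2| * |r g - 1 / (Fintype.card G : ℝ)| := by
        rw [abs_mul, abs_sub_comm (1 / (Fintype.card G : ℝ)) (r g)]
    _ ≤ 1/2 * |r g - 1 / (Fintype.card G : ℝ)| :=
        mul_le_mul_of_nonneg_right h3 (abs_nonneg _)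

end TV

section Factor

variable {Z : Type*} [Group Z] [Fintype Z] [DecidableEq Z]

/-- The mixture `x δ_1 + (1 - x) u`. -/
noncomputable def q (Z : Type*) [Group Z] [Fintype Z] [DecidableEq Z] (x : ℝ) (z : Z) : ℝ :=
  x * (if z = 1 then 1 else 0) + (1 - x) * (1 / (Fintype.card Z : ℝ))

lemma q_sum (x : ℝ) : ∑ z, q Z x z = 1 := by
  have hc : (0:ℝ) < Fintype.card Z := by exact_mod_cast Fintype.card_pos
  unfold q
  rw [Finset.sum_add_distrib, ← Finset.mul_sum, ← Finset.mul_sum]
  simp only [Finset.sum_const, Finset.card_univ, nsmul_eq_mul, Finset.sum_ite_eq', Finset.mem_univ,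
    if_true]
  field_simp; ring

lemma q_conv (x y : ℝ) (z : Z) : ∑ w, q Z x w * q Z y (w⁻¹ * z) = q Z (x * y) z := by
  have hc : (0:ℝ) < Fintype.card Z := by exact_mod_cast Fintype.card_pos
  have h1 : ∀ w : Z, q Z x w * q Z y (w⁻¹ * z) =
      (if w = 1 then x * q Z y z else 0) +
        ((1 - x) * (1 / (Fintype.card Z : ℝ))) * q Z y (w⁻¹ * z) := by
    intro w
    by_cases hw : w = 1
    · subst hw
      simp [q]; ring
    · simp [q, hw]
  have h2 : ∑ w : Z, q Z y (w⁻¹ * z) = 1 := by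
    rw [← q_sum (Z := Z) y]
    have := Fintype.sum_equiv ((Equiv.inv Z).trans (Equiv.mulRight z)) (fun w => q Z y (w⁻¹ * z))
      (fun w => q Z y w) (fun w => by simp)
    exact this
  rw [Finset.sum_congr rfl (fun w _ => h1 w), Finset.sum_add_distrib, ← Finset.mul_sum, h2]
  simp only [Finset.sum_ite_eq', Finset.mem_univ, if_true]
  unfold q
  ring

lemma q_ge (x : ℝ) (hx : 0 ≤ x) (z : Z) : (1 - x) * (1 / (Fintype.card Z : ℝ)) ≤ q Z x z := by
  unfold q
  have : 0 ≤ x * (if z = 1 then (1:ℝ) else 0) := by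
    split_ifs <;> simp [hx]
  linarith

lemma q_nonneg (x : ℝ) (hx : 0 ≤ x) (hx1 : x ≤ 1) (z : Z) : 0 ≤ q Z x z := by
  have := q_ge x hx z
  have h2 : 0 ≤ (1 - x) * (1 / (Fintype.card Z : ℝ)) := by
    have : 0 ≤ 1 - x := by linarith
    positivity
  linarith

lemma q_off (x : ℝ) : ∑ z, (if z = 1 then (0:ℝ) else 1) * q Z x z =
    (1 - x) * (1 - 1 / (Fintype.card Z : ℝ)) := by
  have hc : (0:ℝ) < Fintype.card Z := by exact_mod_cast Fintype.card_pos
  have h1 : ∀ z : Z, (if z = 1 then (0:ℝ) else 1) * q Z x z = q Z x z - (if z = 1 then q Z x 1 else 0) := by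
    intro z
    by_cases hz : z = 1
    · subst hz; simp
    · simp [hz]
  rw [Finset.sum_congr rfl (fun w _ => h1 w), Finset.sum_sub_distrib, q_sum]
  simp only [Finset.sum_ite_eq', Finset.mem_univ, if_true]
  unfold q
  simp; ring

variable {I : Type*} [Fintype I] [DecidableEq I]

/-- Product of the mixtures. -/
noncomputable def Q (Z : Type*) [Group Z] [Fintype Z] [DecidableEq Z] {I : Type*} [Fintype I]
    (x : ℝ) (g : I → Z) : ℝ := ∏ i, q Z x (g i)

lemma sum_prod_eq (f : Z → ℝ) : ∑ g : I → Z, ∏ i, f (g i) = (∑ z, f z) ^ (Fintype.card I) := by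
  have h := Finset.prod_univ_sum (fun _ : I => (Finset.univ : Finset Z)) (fun _ z => f z)
  rw [Fintype.piFinset_univ] at h
  rw [← h]
  simp

lemma Q_sum (x : ℝ) : ∑ g : I → Z, Q Z x g = 1 := by
  unfold Q
  rw [sum_prod_eq, q_sum, one_pow]

lemma Q_conv (x y : ℝ) (g : I → Z) : ∑ h : I → Z, Q Z x h * Q Z y (h⁻¹ * g) = Q Z (x * y) g := by
  unfold Q
  have h := Finset.prod_univ_sum (fun _ : I => (Finset.univ : Finset Z))
    (fun i w => q Z x w * q Z y (w⁻¹ * g i))
  rw [Fintype.piFinset_univ] at h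
  simp only [q_conv] at h
  rw [h]
  apply Finset.sum_congr rfl
  intro h _
  rw [← Finset.prod_mul_distrib]
  simp

lemma Q_one (g : I → Z) : Q Z 1 g = if g = 1 then 1 else 0 := by
  unfold Q q
  by_cases h : g = 1
  · subst h; simp
  · simp only [h, if_false]
    obtain ⟨i, hi⟩ : ∃ i, g i ≠ 1 := by
      by_contra hcon
      push Not at hcon
      exact h (funext hcon)
    apply Finset.prod_eq_zero (Finset.mem_univ i)
    simp [hi]

lemma Q_ge (x : ℝ) (hx : 0 ≤ x) (hx1 : x ≤ 1) (g : I → Z) :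
    (1 - x) ^ (Fintype.card I) * (1 / (Fintype.card (I → Z) : ℝ)) ≤ Q Z x g := by
  unfold Q
  have h1 : (1 - x) ^ (Fintype.card I) * (1 / (Fintype.card (I → Z) : ℝ)) =
      ∏ _i : I, ((1 - x) * (1 / (Fintype.card Z : ℝ))) := by
    rw [Finset.prod_const, Finset.card_univ, mul_pow, Fintype.card_fun]
    simp
  rw [h1]
  apply Finset.prod_le_prod
  · intro i _
    have : 0 ≤ 1 - x := by linarith
    positivity
  · intro i _
    exact q_ge x hx _

lemma Q_nonneg (x : ℝ) (hx : 0 ≤ x) (hx1 : x ≤ 1) (g : I → Z) : 0 ≤ Q Z x g := by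
  unfold Q
  exact Finset.prod_nonneg (fun i _ => q_nonneg x hx hx1 _)

/-- Indicator of `no coordinate is trivial`. -/
noncomputable def off {I : Type*} [Fintype I] (g : I → Z) : ℝ := ∏ i, (if g i = 1 then (0:ℝ) else 1)

lemma off_nonneg (g : I → Z) : 0 ≤ off g := by
  unfold off
  apply Finset.prod_nonneg
  intro i _
  split_ifs <;> norm_num

lemma off_le_one (g : I → Z) : off g ≤ 1 := by
  unfold off
  apply Finset.prod_le_one
  · intro i _
    split_ifs <;> norm_num
  · intro i _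
    split_ifs <;> norm_num

lemma off_Q (x : ℝ) : ∑ g : I → Z, off g * Q Z x g =
    ((1 - x) * (1 - 1 / (Fintype.card Z : ℝ))) ^ (Fintype.card I) := by
  have : ∀ g : I → Z, off g * Q Z x g = ∏ i, ((if g i = 1 then (0:ℝ) else 1) * q Z x (g i)) := by
    intro g
    unfold off Q
    rw [Finset.prod_mul_distrib]
  rw [Finset.sum_congr rfl (fun g _ => this g)]
  rw [sum_prod_eq (fun z => (if z = 1 then (0:ℝ) else 1) * q Z x z), q_off]

lemma Q_zero (g : I → Z) : Q Z 0 g = 1 / (Fintype.card (I → Z) : ℝ) := by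
  unfold Q q
  simp

lemma off_u : ∑ g : I → Z, off g * (1 / (Fintype.card (I → Z) : ℝ)) =
    (1 - 1 / (Fintype.card Z : ℝ)) ^ (Fintype.card I) := by
  have h := off_Q (Z := Z) (I := I) 0
  simp only [Q_zero] at h
  rw [h]
  simp

end Factor

end Pool.Agent.TH994.PreCut
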