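import Pool.Agent.TH994.PreCut

set_option autoImplicit false
open Filter Topology Finset

namespace Pool.Agent.TH994.PreCut

section Walk

variable {Z : Type*} [Group Z] [Fintype Z] [DecidableEq Z]
variable {I : Type*} [Fintype I] [DecidableEq I] {J : Type*} [Fintype J] [DecidableEq J]

/-- `a Q_x + (1 - a) u`. -/
noncomputable def mix (Z : Type*) [Group Z] [Fintype Z] [DecidableEq Z] {J : Type*} [Fintype J]
    (a x : ℝ) (g : J → Z) : ℝ := a * Q Z x g + (1 - a) * Q Z 0 g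

lemma mix_sum (a x : ℝ) : ∑ g : J → Z, mix Z a x g = 1 := by
  unfold mix
  rw [Finset.sum_add_distrib, ← Finset.mul_sum, ← Finset.mul_sum, Q_sum, Q_sum]
  ring

lemma mix_conv (a x b y : ℝ) (g : J → Z) :
    ∑ h : J → Z, mix Z a x h * mix Z b y (h⁻¹ * g) = mix Z (a * b) (x * y) g := by
  have h1 : ∀ h : J → Z, mix Z a x h * mix Z b y (h⁻¹ * g) =
      a * b * (Q Z x h * Q Z y (h⁻¹ * g)) + a * (1 - b) * (Q Z x h * Q Z 0 (h⁻¹ * g)) +
      (1 - a) * b * (Q Z 0 h * Q Z y (h⁻¹ * g)) + (1 - a) * (1 - b) * (Q Z 0 h * Q Z 0 (h⁻¹ * g)) := by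
    intro h
    unfold mix
    ring
  rw [Finset.sum_congr rfl (fun h _ => h1 h)]
  simp only [Finset.sum_add_distrib, ← Finset.mul_sum, Q_conv, mul_zero, zero_mul]
  unfold mix
  ring

lemma mix_ge (a x : ℝ) (ha : 0 ≤ a) (hx : 0 ≤ x) (hx1 : x ≤ 1) (g : J → Z) :
    (1 - a * (1 - (1 - x) ^ (Fintype.card J))) * (1 / (Fintype.card (J → Z) : ℝ)) ≤ mix Z a x g := by
  unfold mix
  have h1 := Q_ge (Z := Z) x hx hx1 g
  rw [Q_zero]
  have h2 := mul_le_mul_of_nonneg_left h1 ha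
  linarith

lemma mix_nonneg (a x : ℝ) (ha : 0 ≤ a) (ha1 : a ≤ 1) (hx : 0 ≤ x) (hx1 : x ≤ 1) (g : J → Z) :
    0 ≤ mix Z a x g := by
  unfold mix
  have h1 := Q_nonneg (Z := Z) x hx hx1 g
  have h2 := Q_nonneg (Z := Z) 0 le_rfl zero_le_one g
  have h3 : 0 ≤ 1 - a := by linarith
  positivity

lemma off_mix (a x : ℝ) : ∑ g : J → Z, off g * mix Z a x g =
    (1 - 1 / (Fintype.card Z : ℝ)) ^ (Fintype.card J) *
      (1 - a * (1 - (1 - x) ^ (Fintype.card J))) := by
  have h1 : ∀ g : J → Z, off g * mix Z a x g = a * (off g * Q Z x g) + (1 - a) * (off g * Q Z 0 g) := by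
    intro g
    unfold mix; ring
  rw [Finset.sum_congr rfl (fun h _ => h1 h), Finset.sum_add_distrib, ← Finset.mul_sum,
    ← Finset.mul_sum, off_Q, off_Q, mul_pow, mul_pow]
  simp only [sub_zero, one_pow, one_mul]
  ring

/-- The law at time with parameters `x` (fraction untouched) and `a` (no global refreshment). -/
noncomputable def R (Z : Type*) [Group Z] [Fintype Z] [DecidableEq Z] {I : Type*} [Fintype I]
    {J : Type*} [Fintype J] (a x : ℝ) (g : (I → Z) × (J → Z)) : ℝ := Q Z x g.1 * mix Z a x g.2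

lemma R_sum (a x : ℝ) : ∑ g : (I → Z) × (J → Z), R Z a x g = 1 := by
  unfold R
  rw [Fintype.sum_prod_type]
  simp only [← Finset.mul_sum, mix_sum, mul_one, Q_sum]

lemma R_conv (a x b y : ℝ) (g : (I → Z) × (J → Z)) :
    ∑ h : (I → Z) × (J → Z), R Z a x h * R Z b y (h⁻¹ * g) = R Z (a * b) (x * y) g := by
  unfold R
  rw [Fintype.sum_prod_type]
  have h1 : ∀ (h1 : I → Z) (h2 : J → Z), (Q Z x (h1, h2).1 * mix Z a x (h1, h2).2) *
      (Q Z y ((h1, h2)⁻¹ * g).1 * mix Z b y ((h1, h2)⁻¹ * g).2) =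
      (Q Z x h1 * Q Z y (h1⁻¹ * g.1)) * (mix Z a x h2 * mix Z b y (h2⁻¹ * g.2)) := by
    intro h1 h2
    simp only [Prod.inv_mk, Prod.fst_mul, Prod.snd_mul]
    ring
  rw [Finset.sum_congr rfl (fun h _ => Finset.sum_congr rfl (fun h2 _ => h1 h h2))]
  simp only [← Finset.mul_sum, mix_conv]
  rw [← Finset.sum_mul, Q_conv]

lemma R_zero (g : (I → Z) × (J → Z)) : R Z 1 1 g = if g = 1 then 1 else 0 := by
  unfold R mix
  simp only [Q_one, one_mul, sub_self, zero_mul, add_zero]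
  by_cases h1 : g.1 = 1
  · by_cases h2 : g.2 = 1
    · have : g = 1 := Prod.ext h1 h2
      simp [this]
    · have : g ≠ 1 := fun h => h2 (by rw [h]; rfl)
      simp [h2, this]
  · have : g ≠ 1 := fun h => h1 (by rw [h]; rfl)
    simp [h1, this]

lemma R_pw (a x : ℝ) (k : ℕ) (g : (I → Z) × (J → Z)) :
    pw (R Z a x) k g = R Z (a ^ k) (x ^ k) g := by
  apply pw_eq (R Z a x) (fun k => R Z (a ^ k) (x ^ k))
  · intro g
    simp only [pow_zero]
    exact R_zero g
  · intro k g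
    rw [R_conv, pow_succ', pow_succ']

lemma R_nonneg (a x : ℝ) (ha : 0 ≤ a) (ha1 : a ≤ 1) (hx : 0 ≤ x) (hx1 : x ≤ 1)
    (g : (I → Z) × (J → Z)) : 0 ≤ R Z a x g :=
  mul_nonneg (Q_nonneg x hx hx1 _) (mix_nonneg a x ha ha1 hx hx1 _)

/-- total variation distance of `R a x` to uniform -/
noncomputable def tv (Z : Type*) [Group Z] [Fintype Z] [DecidableEq Z] (I : Type*) [Fintype I]
    [DecidableEq I] (J : Type*) [Fintype J] [DecidableEq J] (a x : ℝ) : ℝ :=
  (1/2 : ℝ) * ∑ g : (I → Z) × (J → Z), |R Z a x g - 1 / (Fintype.card ((I → Z) × (J → Z)) : ℝ)|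

lemma one_div_mul_eq_div_aux (u v : ℝ) : 1 / (u * v) = (1 / u) * (1 / v) := by
  rw [one_div_mul_one_div]

lemma tv_upper (a x : ℝ) (ha : 0 ≤ a) (ha1 : a ≤ 1) (hx : 0 ≤ x) (hx1 : x ≤ 1) :
    tv Z I J a x ≤ 1 - (1 - x) ^ (Fintype.card I) * (1 - a * (1 - (1 - x) ^ (Fintype.card J))) := by
  unfold tv
  have hp1 : (1 - x) ^ (Fintype.card I) ≤ 1 := pow_le_one₀ (by linarith) (by linarith)
  have hp10 : 0 ≤ (1 - x) ^ (Fintype.card I) := pow_nonneg (by linarith) _
  have hp2 : (1 - x) ^ (Fintype.card J) ≤ 1 := pow_le_one₀ (by linarith) (by linarith)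
  have hp20 : 0 ≤ (1 - x) ^ (Fintype.card J) := pow_nonneg (by linarith) _
  have h3 : 0 ≤ 1 - a * (1 - (1 - x) ^ (Fintype.card J)) := by nlinarith
  have h3' : 1 - a * (1 - (1 - x) ^ (Fintype.card J)) ≤ 1 := by nlinarith
  apply tv_le _ (R_sum a x)
  · intro g
    unfold R
    have h1 := Q_ge (Z := Z) x hx hx1 g.1
    have h2 := mix_ge (Z := Z) a x ha hx hx1 g.2
    have h4 : (1 - (1 - (1 - x) ^ (Fintype.card I) * (1 - a * (1 - (1 - x) ^ (Fintype.card J))))) *
        (1 / (Fintype.card ((I → Z) × (J → Z)) : ℝ)) =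
        ((1 - x) ^ (Fintype.card I) * (1 / (Fintype.card (I → Z) : ℝ))) *
        ((1 - a * (1 - (1 - x) ^ (Fintype.card J))) * (1 / (Fintype.card (J → Z) : ℝ))) := by
      rw [Fintype.card_prod]
      push_cast
      have hI : (0:ℝ) < Fintype.card (I → Z) := by exact_mod_cast Fintype.card_pos
      have hJ : (0:ℝ) < Fintype.card (J → Z) := by exact_mod_cast Fintype.card_pos
      rw [one_div_mul_eq_div_aux _ _]
      ring
    rw [h4]
    apply mul_le_mul h1 h2
    · positivity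
    · exact Q_nonneg x hx hx1 _
  · nlinarith

lemma tv_lowerI (a x : ℝ) :
    (1 - 1 / (Fintype.card Z : ℝ)) ^ (Fintype.card I) * (1 - (1 - x) ^ (Fintype.card I)) ≤
      tv Z I J a x := by
  unfold tv
  have h := tv_ge (fun g : (I → Z) × (J → Z) => R Z a x g) (R_sum a x) (fun g => off g.1)
    (fun g => off_nonneg _) (fun g => off_le_one _)
  have h1 : ∑ g : (I → Z) × (J → Z), off g.1 * R Z a x g =
      ((1 - x) * (1 - 1 / (Fintype.card Z : ℝ))) ^ (Fintype.card I) := by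
    unfold R
    rw [Fintype.sum_prod_type]
    simp only [← mul_assoc, ← Finset.mul_sum, mix_sum, mul_one]
    exact off_Q x
  have h2 : ∑ g : (I → Z) × (J → Z), off g.1 * (1 / (Fintype.card ((I → Z) × (J → Z)) : ℝ)) =
      (1 - 1 / (Fintype.card Z : ℝ)) ^ (Fintype.card I) := by
    rw [Fintype.sum_prod_type, Fintype.card_prod, ← off_u (Z := Z) (I := I)]
    apply Finset.sum_congr rfl
    intro g _
    simp only [Finset.sum_const, Finset.card_univ, nsmul_eq_mul]
    push_cast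
    have hI : (0:ℝ) < Fintype.card (I → Z) := by exact_mod_cast Fintype.card_pos
    have hJ : (0:ℝ) < Fintype.card (J → Z) := by exact_mod_cast Fintype.card_pos
    field_simp
  rw [h1, h2, mul_pow] at h
  linarith

lemma tv_lowerJ (a x : ℝ) :
    (1 - 1 / (Fintype.card Z : ℝ)) ^ (Fintype.card J) * (a * (1 - (1 - x) ^ (Fintype.card J))) ≤
      tv Z I J a x := by
  unfold tv
  have h := tv_ge (fun g : (I → Z) × (J → Z) => R Z a x g) (R_sum a x) (fun g => off g.2)
    (fun g => off_nonneg _) (fun g => off_le_one _)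
  have h1 : ∑ g : (I → Z) × (J → Z), off g.2 * R Z a x g =
      (1 - 1 / (Fintype.card Z : ℝ)) ^ (Fintype.card J) *
      (1 - a * (1 - (1 - x) ^ (Fintype.card J))) := by
    unfold R
    rw [Fintype.sum_prod_type]
    have : ∀ (g1 : I → Z) (g2 : J → Z), off (g1, g2).2 * (Q Z x (g1, g2).1 * mix Z a x (g1, g2).2) =
        Q Z x g1 * (off g2 * mix Z a x g2) := by
      intro g1 g2; simp only; ring
    rw [Finset.sum_congr rfl (fun h _ => Finset.sum_congr rfl (fun h2 _ => this h h2))]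
    simp only [← Finset.mul_sum, off_mix]
    rw [← Finset.sum_mul, Q_sum, one_mul]
  have h2 : ∑ g : (I → Z) × (J → Z), off g.2 * (1 / (Fintype.card ((I → Z) × (J → Z)) : ℝ)) =
      (1 - 1 / (Fintype.card Z : ℝ)) ^ (Fintype.card J) := by
    rw [Fintype.sum_prod_type_right, Fintype.card_prod, ← off_u (Z := Z) (I := J)]
    apply Finset.sum_congr rfl
    intro g _
    simp only [Finset.sum_const, Finset.card_univ, nsmul_eq_mul]
    push_cast
    have hI : (0:ℝ) < Fintype.card (I → Z) := by exact_mod_cast Fintype.card_pos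
    have hJ : (0:ℝ) < Fintype.card (J → Z) := by exact_mod_cast Fintype.card_pos
    field_simp
  rw [h1, h2] at h
  linarith

end Walk

end Pool.Agent.TH994.PreCut
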